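import Pool.Agent.X298.ST.DMain

/-!
# Deligne's conjecture for the Artin twists of a motive: one convergent sum per Frobenius class

`F/K` is a Galois extension of number fields with group `G` (in the problem `K = ℚ`; a motive over `K` gives one over `ℚ` by
restriction of scalars, with the same `L`-function), `M` a pure motive of weight `w` over `K` with coefficients in a number
field `E`, `S` a set of finite places containing those where `M` is ramified, and `n ≥ w/2` an integer. Used are the traces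
`a_v(k) = Tr(Frob_v^k | M) ∈ E`, `|τ(a_v(k))| ≤ d q_v^{kw/2}` for all embeddings `τ : E → ℂ`. For `v ∉ S` let
`Frob_v^k ⊂ G` be the coset of the inertia group of the elements acting as `x ↦ x^(q_v^k)` modulo a prime of `F` above `v`
(`v` may be ramified in `F`), and `f(v^k)` the mean of a function `f` over `Frob_v^k`. Then for the characters `f = χ` of `G`

`log L_S(s, M ⊗ f) = ∑_{v ∉ S} ∑_{k ≥ 1} a_v(k) f(v^k) q_v^{-ks} / k`,  `Re s > w/2 + 1`,

and `L_S(s, M ⊗ f)` is taken in this sense for all functions `f` on `G`; its continuation to a function meromorphic at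
the real points of `[n, w/2 + 1]` is a hypothesis. NO hypothesis on zeros is made. For a fixed `γ > π/2` and `T > 0` let

`S_f(T) = - ∑_{v ∉ S} ∑_{k ≥ 1} a_v(k) f(v^k) q_v^{-kn} exp(iγk log q_v / T) / (k Γ(1 + k log q_v / T))`,

which converges absolutely. For class functions `S_f(T) = ∑_C f(C) S_C(T)` with one sum `S_C(T)` for every conjugacy class
`C` of `G`; the `S_C(T)` do not involve characters. Results:

1. `S_f(T) = m (log T - Λ(γ)) - ℓ + O(1/T)`, `m` the order at `n`, `exp ℓ` the leading coefficient. If `L_S(s, M ⊗ f)` is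
   holomorphic at `n`, then `L_S(n, M ⊗ f) = exp(-S_f(T)) + O(1/T)`, and the value is `0` if and only if
   `Re S_f(T) → ∞`.
2. DELIGNE'S FORMULA for `M ⊗ f`, `f` with values in `E`: for any `Ω^τ ≠ 0` (in Deligne's conjecture the components of
   `(2πi)^{n n^ε} c^ε(M ⊗ f)`) there is an `x ∈ E` with `L_S^τ(n, M ⊗ f) = τ(x) Ω^τ` for all `τ` if and only if for some
   `N ≥ 1` the vector `(N exp(-S^τ_f(T)) / Ω^τ)_τ` comes arbitrarily close to the lattice of the integers of `E`, for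
   arbitrarily large `T`; and then it is a fixed lattice point up to `O(1/T)`. The possibility that the value vanishes is
   included.
3. Let `χ_i` be functions with positive weights `r_i` such that `∑_i r_i χ_i` is the characteristic function of `1 ∈ G` (all
   the irreducible characters, `r_i = χ_i(1) / |G|`), all `L_S(s, M ⊗ χ_i)` holomorphic at `n`. Then for the single sum
   `S_1(T)` over the pairs `(v, k)` with `1 ∈ Frob_v^k`: `Re S_1(T) / log T → ∑_i r_i ord_n L_S(s, M ⊗ χ_i)` (which is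
   `[F : K]^{-1}` times the order of the `L`-function of `M` over `F`), and ALL the values `L_S(n, M ⊗ χ_i)` are different
   from `0` if and only if `Re S_1(T)` is bounded above as `T → ∞`.

Proof: the rotated law of `Pool.Agent.X287.CR`, here with arbitrary bounded coefficients; discreteness of the ring of integers.
-/

set_option autoImplicit false

open Filter Topology Asymptotics
open IsDedekindDomain NumberField

namespace Pool.Agent.Results.MP_b696eb_nt.ArtinTwistsFromFrobeniusClasses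

open Pool.Agent.X298.ST

/-- `exp(-S^τ_f(T)) / Ω`. -/
noncomputable def approxValue {K F : Type} [Field K] [NumberField K] [Field F] [NumberField F] [Algebra K F]
    {S : Set (HeightOneSpectrum (𝓞 K))} (P : Places S → Ideal (𝓞 F)) {E : Type} [Field E]
    (a : Places S → ℕ → E) (n : ℤ) (f : (F ≃ₐ[K] F) → E) (γ : ℝ) (Ω : ℂ) (τ : E →+* ℂ) (T : ℝ) : ℂ :=
  Complex.exp (-twistSum P (fun v k => τ (a v k)) n (fun g => τ (f g)) γ T) / Ω

theorem zero_pos {L : ℂ → ℂ} {s₀ : ℂ} {m : ℤ} {r₀ : ℂ} (hL : AnalyticAt ℂ L s₀)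
    (hm : meromorphicOrderAt L s₀ = m) (hl : meromorphicTrailingCoeffAt L s₀ = Complex.exp r₀) :
    0 ≤ m ∧ (L s₀ ≠ 0 ↔ m = 0) := by
  obtain ⟨h0, h1, h2⟩ := Pool.Agent.X287.CR.value hL hm hl
  refine ⟨h0, ⟨fun h3 => ?_, fun h3 => ?_⟩⟩
  · by_contra h4
    exact h3 (h2 h4)
  · rw [h1 h3]
    exact Complex.exp_ne_zero _

/-- **Deligne's conjecture for the Artin twists of a motive: one convergent sum per Frobenius class.** -/
theorem result (K F : Type) [Field K] [NumberField K] [Field F] [NumberField F] [Algebra K F]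
    [IsGalois K F] (S : Set (HeightOneSpectrum (𝓞 K))) (P : Places S → Ideal (𝓞 F)) (hP : IsAbove P)
    (w n : ℤ) (hn : w ≤ 2 * n) (γ : ℝ) (hγ : Real.pi / 2 < γ) :
    -- 0. the sets `Frob_v^k` are not empty, the sums converge absolutely and decompose into class sums
    ((∀ v k, (frob P v k).Nonempty) ∧
      ∀ c : Places S → ℕ → ℂ, IsPure c w →
        (∀ (f : (F ≃ₐ[K] F) → ℂ) (T : ℝ), 0 < T → Summable fun x => ‖twistTerm P c n f γ T x‖) ∧
        (∀ (φ : ConjClasses (F ≃ₐ[K] F) → ℂ) (T : ℝ), 0 < T →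
          twistSum P c n (fun g => φ (ConjClasses.mk g)) γ T = ∑ᶠ C, φ C * twistClass P c n γ T C)) ∧
    -- 1. order, leading coefficient and value
    (∀ c : Places S → ℕ → ℂ, IsPure c w → ∀ (f : (F ≃ₐ[K] F) → ℂ) (Λ : ℂ → ℂ),
      IsTwistL P c w n f Λ →
      (∃ (m : ℤ) (ℓ : ℂ), meromorphicOrderAt Λ (n : ℂ) = m ∧
        meromorphicTrailingCoeffAt Λ (n : ℂ) = Complex.exp ℓ ∧
        (fun T : ℝ => twistSum P c n f γ T - (m * (Real.log T - Lambda γ) - ℓ)) =O[atTop]
          (fun T : ℝ => 1 / T)) ∧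
      (AnalyticAt ℂ Λ (n : ℂ) →
        (fun T : ℝ => Complex.exp (-twistSum P c n f γ T) - Λ n) =O[atTop] (fun T : ℝ => 1 / T) ∧
        (Λ n = 0 ↔ Tendsto (fun T : ℝ => (twistSum P c n f γ T).re) atTop atTop))) ∧
    -- 2. Deligne's formula
    (∀ (E : Type) [Field E] [NumberField E] (a : Places S → ℕ → E) (f : (F ≃ₐ[K] F) → E)
      (Λ : (E →+* ℂ) → ℂ → ℂ) (Ω : (E →+* ℂ) → ℂ), (∀ τ : E →+* ℂ, IsPure (fun v k => τ (a v k)) w) →
      (∀ τ : E →+* ℂ, IsTwistL P (fun v k => τ (a v k)) w n (fun g => τ (f g)) (Λ τ)) →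
      (∀ τ, AnalyticAt ℂ (Λ τ) (n : ℂ)) → (∀ τ, Ω τ ≠ 0) →
      ((∃ x : E, ∀ τ, Λ τ n = τ x * Ω τ) ↔
        ∃ N : ℕ, 1 ≤ N ∧ ∀ ε : ℝ, 0 < ε → ∀ T₀ : ℝ, ∃ T ≥ T₀, ∃ y : 𝓞 E, ∀ τ,
          ‖N * approxValue P a n f γ (Ω τ) τ T - τ (y : E)‖ < ε) ∧
      ((∃ x : E, ∀ τ, Λ τ n = τ x * Ω τ) ↔
        ∃ N : ℕ, 1 ≤ N ∧ ∃ (y : 𝓞 E) (C T₀ : ℝ), ∀ T ≥ T₀, ∀ τ,
          ‖N * approxValue P a n f γ (Ω τ) τ T - τ (y : E)‖ ≤ C / T)) ∧
    -- 3. simultaneous non-vanishing
    (∀ c : Places S → ℕ → ℂ, IsPure c w → ∀ (ι : Type) [Fintype ι] (χ : ι → (F ≃ₐ[K] F) → ℂ)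
      (r : ι → ℝ) (Λ : ι → ℂ → ℂ), (∀ i, 0 < r i) →
      (∑ i, (r i : ℂ) • χ i = Set.indicator {1} fun _ => (1 : ℂ)) →
      (∀ i, IsTwistL P c w n (χ i) (Λ i)) → (∀ i, AnalyticAt ℂ (Λ i) (n : ℂ)) →
      (∃ m : ι → ℤ, (∀ i, meromorphicOrderAt (Λ i) (n : ℂ) = m i) ∧
        Tendsto (fun T : ℝ => (twistSum P c n (Set.indicator {1} fun _ => (1 : ℂ)) γ T).re / Real.log T)
          atTop (𝓝 (∑ i, r i * m i))) ∧
      ((∀ i, Λ i n ≠ 0) ↔
        ∃ C : ℝ, ∀ᶠ T : ℝ in atTop,
          (twistSum P c n (Set.indicator {1} fun _ => (1 : ℂ)) γ T).re ≤ C)) := by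
  have hn' : (w : ℝ) / 2 ≤ n := by
    have h1 : (w : ℝ) ≤ 2 * n := by exact_mod_cast hn
    linarith
  refine ⟨⟨frob_nonempty hP, fun c hc => ⟨fun f T hT => twist_summable hc hn' f γ hT,
    fun φ T hT => twistSum_class hc hn' φ γ hT⟩⟩, fun c hc f Λ h => ?_, fun E _ _ a f Λ Ω hc h hΛ hΩ => ?_,
    fun c hc ι _ χ r Λ hr hχ h hΛ => ?_⟩
  · obtain ⟨m, r₀, h1, h2, h3⟩ := twist_asy hc hn' h hγ
    refine ⟨⟨m, r₀, h1, h2, h3⟩, fun ha => ⟨exp_value ha h1 h2 h3, ?_⟩⟩
    exact (Pool.Agent.X287.CR.value_iff ha h1 h2 h3).zero_iff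
  · have hrate : ∀ τ, (fun T : ℝ => approxValue P a n f γ (Ω τ) τ T - Λ τ n / Ω τ) =O[atTop]
        (fun T : ℝ => 1 / T) := by
      intro τ
      obtain ⟨m, r₀, h1, h2, h3⟩ := twist_asy (hc τ) hn' (h τ) hγ
      have h4 := (exp_value (hΛ τ) h1 h2 h3).const_mul_left (Ω τ)⁻¹
      refine h4.congr_left fun T => ?_
      unfold approxValue
      ring
    have hiff : (∃ x : E, ∀ τ, Λ τ n = τ x * Ω τ) ↔ ∃ e : E, ∀ τ, Λ τ n / Ω τ = τ e := by
      refine exists_congr fun x => forall_congr' fun τ => ?_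
      rw [div_eq_iff (hΩ τ)]
    have h5 := lattice hrate
    exact ⟨hiff.trans h5.1, hiff.trans h5.2⟩
  · choose m r₀ h1 h2 h3 using fun i => twist_asy hc hn' (h i) hγ
    set X : ℝ → ℝ := fun T => (twistSum P c n (Set.indicator {1} fun _ => (1 : ℂ)) γ T).re with hX
    have hsum : ∀ T : ℝ, 0 < T → X T = ∑ i, r i * (twistSum P c n (χ i) γ T).re := by
      intro T hT
      rw [hX]
      simp only
      rw [← hχ, twistSum_sum hc hn' _ _ _ γ hT, Complex.re_sum]
      refine Finset.sum_congr rfl fun i _ => ?_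
      rw [Complex.re_ofReal_mul]
    have hlim : Tendsto (fun T : ℝ => X T / Real.log T) atTop (𝓝 (∑ i, r i * m i)) := by
      have h4 : Tendsto (fun T : ℝ => ∑ i, r i * ((twistSum P c n (χ i) γ T).re / Real.log T)) atTop
          (𝓝 (∑ i, r i * m i)) :=
        tendsto_finsetSum _ fun i _ => (h3 i).order_lim.const_mul (r i)
      refine h4.congr' ?_
      filter_upwards [eventually_gt_atTop (0 : ℝ)] with T hT
      rw [hsum T hT, Finset.sum_div]
      exact Finset.sum_congr rfl fun i _ => by ring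
    refine ⟨⟨m, h1, hlim⟩, ?_⟩
    have hz : ∀ i, 0 ≤ m i ∧ (Λ i n ≠ 0 ↔ m i = 0) := fun i => zero_pos (hΛ i) (h1 i) (h2 i)
    constructor
    · intro h5
      have h6 : ∀ i, ∃ C : ℝ, ∀ᶠ T : ℝ in atTop, |(twistSum P c n (χ i) γ T).re| ≤ C :=
        fun i => (h3 i).zero_iff.1 ((hz i).2.1 (h5 i))
      choose C hC using h6
      refine ⟨∑ i, r i * C i, ?_⟩
      filter_upwards [eventually_all.2 hC, eventually_gt_atTop (0 : ℝ)] with T hT hT0
      rw [show (twistSum P c n (Set.indicator {1} fun _ => (1 : ℂ)) γ T).re = X T from rfl, hsum T hT0]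
      exact Finset.sum_le_sum fun i _ =>
        mul_le_mul_of_nonneg_left ((le_abs_self _).trans (hT i)) (hr i).le
    · rintro ⟨C, hC⟩ i
      rw [(hz i).2]
      by_contra h0
      have hpos : 0 < ∑ i, r i * (m i : ℝ) := by
        refine Finset.sum_pos' (fun j _ => mul_nonneg (hr j).le (by exact_mod_cast (hz j).1))
          ⟨i, Finset.mem_univ i, mul_pos (hr i) ?_⟩
        have : 0 < m i := lt_of_le_of_ne (hz i).1 (Ne.symm h0)
        exact_mod_cast this
      have htop : Tendsto X atTop atTop := by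
        have h7 := hlim.pos_mul_atTop hpos Real.tendsto_log_atTop
        refine h7.congr' ?_
        filter_upwards [eventually_gt_atTop (1 : ℝ)] with T hT
        have : Real.log T ≠ 0 := (Real.log_pos hT).ne'
        field_simp
      obtain ⟨T, h8, h9⟩ := (hC.and (htop.eventually_gt_atTop C)).exists
      linarith

end Pool.Agent.Results.MP_b696eb_nt.ArtinTwistsFromFrobeniusClasses
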