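import Pool.Agent.X208.BR.Del

/-!
# Deligne's conjecture: totally real fields of arbitrarily large degree suffice

Let `N` be a critical pure motive over the totally real number field `K` (in the problem `K = ℚ`), with
coefficients in `ℚ`. For a totally real number field `K' ⊃ K` the restriction of scalars
`Res_{K'/ℚ} N_{K'}` is a critical motive over `ℚ`; let `r K'` be the quotient of its `L`-value at `0` and of
its period `c⁺`. Deligne's conjecture for this motive says that `r K'` is rational. The only input are the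
Brauer relations (`CriticalRatios`). Let `M` be totally real and `M/K` Galois with elementary abelian group of
exponent `p`, such that `r K' ≠ 0` for `K ⊂ K' ⊂ M` (`Good`).

1. If `(r K)^{p^{j+1}}` is not rational, the proportions `x_j`, `x_{j+1}` of the fields `K'` for which the
   conjecture fails among those of degree `p^j`, `p^{j+1}` over `K` satisfy
   `(1 + p + ... + p^j) x_j + x_{j+1} ≥ 1`.
2. If the conjecture fails over `K`, this is so for all `p` but at most one, for all `j` and `M`; in
   particular it fails for some `K'` of degree `p^j` or `p^{j+1}`, as soon as `[M : K] ≥ p^{j+1}`.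
3. So Deligne's conjecture over `K` follows from the conjecture over the fields of degrees `p^j`, `p^{j+1}`
   in one such `M`, and `ℓ^i`, `ℓ^{i+1}` in one such `M'`, for two primes `p ≠ ℓ` and any `i`, `j`: totally
   real fields of arbitrarily large degree suffice.

-/

set_option autoImplicit false

namespace Pool.Agent.Results.MP_b696eb_nt.FieldsOfLargeDegree

open Pool.Agent.X208.BR.Pk

/-- **Deligne's conjecture: fields of large degree suffice.** -/
theorem result (K : Fld) (D : CriticalRatios K) :
    -- 1. one prime, two consecutive layers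
    (∀ (p : ℕ) (M : Fld) (j : ℕ), D.Good p M → (∀ q : ℚ, D.r K ^ p ^ (j + 1) ≠ q) →
      (layer K M (p ^ j)).ncard * (layer K M (p ^ (j + 1))).ncard ≤
        (layer K M (p ^ j)).ncard * (D.failing M (p ^ (j + 1))).ncard +
          (∑ i ∈ Finset.range (j + 1), p ^ i) * (layer K M (p ^ (j + 1))).ncard *
            (D.failing M (p ^ j)).ncard) ∧
    -- 2. all primes but at most one
    (D.r K ≠ 0 → ¬ D.Deligne K → ∃ p₀ : ℕ, ∀ (p : ℕ) (M : Fld) (j : ℕ),
      D.Good p M → p ≠ p₀ →
        (layer K M (p ^ j)).ncard * (layer K M (p ^ (j + 1))).ncard ≤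
          (layer K M (p ^ j)).ncard * (D.failing M (p ^ (j + 1))).ncard +
            (∑ i ∈ Finset.range (j + 1), p ^ i) * (layer K M (p ^ (j + 1))).ncard *
              (D.failing M (p ^ j)).ncard ∧
        (p ^ (j + 1) * deg K ≤ deg M → ∃ n, (n = p ^ j ∨ n = p ^ (j + 1)) ∧
          (D.failing M n).Nonempty)) ∧
    -- 3. fields of arbitrarily large degree suffice
    (∀ (p ℓ : ℕ) (M M' : Fld) (i j : ℕ), p ≠ ℓ → D.Good p M → D.Good ℓ M' →
      p ^ (j + 1) * deg K ≤ deg M → ℓ ^ (i + 1) * deg K ≤ deg M' →
      (∀ K' ∈ layer K M (p ^ j) ∪ layer K M (p ^ (j + 1)) ∪ layer K M' (ℓ ^ i) ∪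
        layer K M' (ℓ ^ (i + 1)), D.Deligne K') → D.Deligne K) := by
  refine ⟨fun p M j hM h => (D.law hM h).1, fun h0 h => ?_, ?_⟩
  · obtain ⟨p₀, hp₀⟩ := D.exceptional h0 h
    exact ⟨p₀, fun p M j hM hp => D.law hM (hp₀ p hM.prime hp (j + 1))⟩
  · intro p ℓ M M' i j hpl hM hM' hd hd' hall
    by_contra hcon
    obtain ⟨p₀, hp₀⟩ := D.exceptional (hM.ne K le_rfl hM.elem.le) hcon
    have key : ∀ (p : ℕ) (M : Fld) (j : ℕ), D.Good p M → p ≠ p₀ → p ^ (j + 1) * deg K ≤ deg M →
        (∀ K' ∈ layer K M (p ^ j) ∪ layer K M (p ^ (j + 1)), D.Deligne K') → False := by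
      intro p M j hM hp hd h1
      obtain ⟨n, hn, L, hL, hL'⟩ := (D.law hM (hp₀ p hM.prime hp (j + 1))).2 hd
      rcases hn with rfl | rfl
      · exact hL' (h1 L (Or.inl hL))
      · exact hL' (h1 L (Or.inr hL))
    by_cases hp : p = p₀
    · refine key ℓ M' i hM' (fun h => hpl (hp.trans h.symm)) hd' fun K' hK' => hall K' ?_
      rcases hK' with h | h
      · exact Or.inl (Or.inr h)
      · exact Or.inr h
    · refine key p M j hM hp hd fun K' hK' => hall K' ?_
      exact Or.inl (Or.inl hK')

end Pool.Agent.Results.MP_b696eb_nt.FieldsOfLargeDegree
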