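import Pool.Agent.X274.PR.Final

set_option autoImplicit false

/-! # Deligne's periods of the representations of a motive: the ratio `c⁺ / c⁻`

Let `M` be a pure motive over `ℚ` with rational coefficients and without `(w/2, w/2)`-classes, and let `ρ` be any
algebraic representation of the algebraic group `GL(M_B)` over `ℚ` with `ρ(-1) = -1`: all Schur functors `S_λ` with
`|λ|` odd, their duals, mixed tensors, and so on. Let `T` be a motive without middle classes which is built from `M`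
by `ρ`, possibly after a tensor product with another motive: the Betti realisation of `T` is the space of `ρ`, `F_∞`
acts by `ρ(F_∞) Φ` with a rational `Φ` that commutes with `ρ` (`Φ = 1` for `T = ρ(M)`, `Φ = 1 ⊗ F_∞` for
`T = ρ(M) ⊗ N`, where `N` is arbitrary and may have middle classes), and `ρ(g)` preserves the Hodge decomposition of
`T` if `g` preserves that of `M`. We show that modulo `ℚˣ`
`c^±(T) / c^∓(T) = (c^±(M) / c^∓(M)) ^ k`, where the integer `k` is given by `k dim M = tr (F_∞ dρ(F_∞))`,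
the trace on `T_B` of `F_∞` times the image of `F_∞ ∈ End(M_B)` under the derivative `dρ` of `ρ`. The Hodge numbers
of `M` and `T` are arbitrary. So the values of `L(T, s)` at two critical integers of opposite parity are predicted by
Deligne's conjecture to have the quotient `(2πi)^a (c^+(M) / c^-(M))^{±k}` up to a rational number; and if Deligne's
formula holds for one of them, then it holds for the other if and only if this is true (third part).

The proof. Let `J` be the operator `sign(p - q)` on `M^{p,q}`. It anticommutes with `F_∞`, and `c⁺(M) / c⁻(M)` is the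
determinant of `J : M⁺ → M⁻` in rational bases, in the same way for `T`. The operator `ρ(J_M)` also anticommutes
with `F_∞` since `ρ` is odd, and it commutes with `J_T`; so `ρ(J_M) J_T` is an involution of `T⁺`, with determinant
`± 1`. Now `J_M = D w D⁻¹`, where `w` is rational and exchanges `M⁺` and `M⁻`, and `D` is the identity on `M⁺` and
some `g ∈ GL(M⁻)(ℂ)` on `M⁻`, with `det g = c⁺(M) / c⁻(M)`. Hence `c⁺(T) / c⁻(T)` is the quotient of the determinants
of `ρ(D)` on `T⁻` and on `T⁺`. This quotient is a character of the algebraic group `GL(M⁻)`, so it is a power of the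
determinant; the exponent is computed with `ℚ[T, T⁻¹]` and `ℚ[ε]`.

`PMot`, `PMot.IsPeriod`, `PMot.NoMiddle` and `PMot.dim` are defined in `Pool.Agent.X33.DP.CDefs`, `AlgRep`, `tangent`
and `AlgRep.der` in `Pool.Agent.X274.PR.Rep`. -/

namespace Pool.Agent.Results.MP_b696eb_nt.PeriodsOfRepresentations

open Matrix Pool.Agent.X33.DP Pool.Agent.X33.DP.PMot Pool.Agent.X274.PR

/-- the matrix `ρ(g)` -/
def mat {N r : ℕ} (ρ : AlgRep N r) (A : Type) [CommRing A] [Algebra ℚ A] (g : GL (Fin N) A) :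
    Matrix (Fin r) (Fin r) A := (ρ.map A g : Matrix (Fin r) (Fin r) A)

/-- `F_∞` as an element of `GL(M_B)(ℚ)` -/
def frobGL (M : PMot ℚ ℂ) : GL (Fin M.N) ℚ := ⟨M.F, M.F, M.F_sq, M.F_sq⟩

/-- `ρ` is odd, `ρ(-1) = -1` -/
def IsOdd {N r : ℕ} (ρ : AlgRep N r) : Prop := ρ.map ℚ (-1) = -1

/-- the rational matrix `Φ` commutes with `ρ` (with `ρ(g)` for all `g ∈ GL_N(A)`, `A` any commutative `ℚ`-algebra) -/
def CommutesWith {N r : ℕ} (ρ : AlgRep N r) (Φ : Matrix (Fin r) (Fin r) ℚ) : Prop :=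
  ∀ (A : Type) [CommRing A] [Algebra ℚ A] (g : GL (Fin N) A),
    mat ρ A g * Φ.map (algebraMap ℚ A) = Φ.map (algebraMap ℚ A) * mat ρ A g

/-- `X` preserves the Hodge decomposition -/
def HodgeStable (M : PMot ℚ ℂ) (X : Matrix (Fin M.N) (Fin M.N) ℂ) : Prop := ∀ p, ∀ x ∈ M.H p, X.mulVec x ∈ M.H p

/-- if `g` preserves the Hodge decomposition of `M`, then `ρ(g)` preserves that of `T` -/
def PreservesHodge (M T : PMot ℚ ℂ) (ρ : AlgRep M.N T.N) : Prop :=
  ∀ g : GL (Fin M.N) ℂ, HodgeStable M g → HodgeStable T (mat ρ ℂ g)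

/-- `T` is built from `M` by the representation `ρ` of `GL(M_B) = GL_N` with the twist `Φ`. -/
structure IsConstruction (M T : PMot ℚ ℂ) (ρ : AlgRep M.N T.N) (Φ : Matrix (Fin T.N) (Fin T.N) ℚ) : Prop where
  /-- `F_∞` of `T` is `ρ(F_∞) Φ` -/
  frob : T.F = mat ρ ℚ (frobGL M) * Φ
  comm : CommutesWith ρ Φ
  hodge : PreservesHodge M T ρ
  odd : IsOdd ρ

/-- Deligne's formula for the value `y` of `L(T, s)` at the integer `m`: `y` is a rational multiple of
`(2πi)^(m d) c^±(T)`, where `± = (-1)^m` and `d = dim T^±`. -/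
def DeligneFormula (T : PMot ℚ ℂ) (m : ℤ) (y : ℂ) : Prop :=
  ∀ t, T.IsPeriod ((-1) ^ m) t →
    ∃ e : ℚ, y = (e : ℂ) * ((2 * (Real.pi : ℂ) * Complex.I) ^ (m * T.dim ((-1) ^ m)) * t)

/-- The periods `c^±(M)` exist and are not zero. -/
def NonzeroPeriods (M : PMot ℚ ℂ) : Prop :=
  ∀ s : ℤˣ, (∃ c, M.IsPeriod s c) ∧ ∀ c, M.IsPeriod s c → c ≠ 0

/-- `c^s(T) / c^{-s}(T) = e (c^s(M) / c^{-s}(M))^k` with a rational `e ≠ 0`. -/
def RatioIsPower (M T : PMot ℚ ℂ) (k : ℤ) : Prop :=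
  ∀ (s : ℤˣ) (c c' t t' : ℂ), M.IsPeriod s c → M.IsPeriod (-s) c' → T.IsPeriod s t → T.IsPeriod (-s) t' →
    ∃ e : ℚ, e ≠ 0 ∧ t / t' = (e : ℂ) * (c / c') ^ k

/-- If Deligne's formula for `T` holds for `y' ≠ 0` at `m'`, then at an integer `m` of the other parity Deligne's
formula for `y` is equivalent to `y = e (2πi)^((m - m') dim T⁺) y' (c^s(M) / c^{-s}(M))^k`, `s = (-1)^m`, `e` in
`ℚ`. -/
def Transfer (M T : PMot ℚ ℂ) (k : ℤ) : Prop :=
  ∀ (m m' : ℤ) (c c' y y' : ℂ), ((-1 : ℤˣ) ^ m') = -(-1) ^ m →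
    M.IsPeriod ((-1) ^ m) c → M.IsPeriod (-(-1) ^ m) c' → y' ≠ 0 → DeligneFormula T m' y' →
    (DeligneFormula T m y ↔ ∃ e : ℚ, y = (e : ℂ) *
      ((2 * (Real.pi : ℂ) * Complex.I) ^ ((m - m') * T.dim 1) * y' * (c / c') ^ k))

/-- **The periods of the representations of a motive.** -/
theorem result (M T : PMot ℚ ℂ) (ρ : AlgRep M.N T.N) (Φ : Matrix (Fin T.N) (Fin T.N) ℚ)
    (h : IsConstruction M T ρ Φ) (hM : M.NoMiddle) (hT : T.NoMiddle) :
    NonzeroPeriods M ∧ NonzeroPeriods T ∧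
      ∃ k : ℤ, (k : ℚ) * M.N = (T.F * ρ.der M.F).trace ∧ RatioIsPower M T k ∧ Transfer M T k := by
  -- `Φ` is invertible
  have hρ : mat ρ ℚ (frobGL M) * mat ρ ℚ (frobGL M) = 1 := by
    have e1 : frobGL M * frobGL M = 1 := Units.ext M.F_sq
    show (ρ.map ℚ (frobGL M) : Matrix (Fin T.N) (Fin T.N) ℚ) * (ρ.map ℚ (frobGL M) : Matrix (Fin T.N) (Fin T.N) ℚ) = 1
    rw [← Units.val_mul, ← map_mul, e1, map_one, Units.val_one]
  have hΦ : Φ = mat ρ ℚ (frobGL M) * T.F := by
    rw [h.frob, ← Matrix.mul_assoc, hρ, Matrix.one_mul]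
  have h1 : Φ * (T.F * mat ρ ℚ (frobGL M)) = 1 := by
    rw [hΦ, Matrix.mul_assoc, ← Matrix.mul_assoc T.F, T.F_sq, Matrix.one_mul, hρ]
  have h2 : (T.F * mat ρ ℚ (frobGL M)) * Φ = 1 := by
    rw [hΦ, Matrix.mul_assoc, ← Matrix.mul_assoc (mat ρ ℚ (frobGL M)), hρ, Matrix.one_mul, T.F_sq]
  have h' : Pool.Agent.X274.PR.IsConstruction M T ρ ⟨Φ, T.F * mat ρ ℚ (frobGL M), h1, h2⟩ :=
    ⟨h.frob, fun A _ _ g => Units.ext (h.comm A g), h.hodge, h.odd⟩
  obtain ⟨k, hk, hk'⟩ := Pool.Agent.X274.PR.main h' hM hT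
  refine ⟨fun s => ⟨M.exists_isPeriod hM s, fun c hc => (isUnit_isPeriod hM hc).ne_zero⟩,
    fun s => ⟨T.exists_isPeriod hT s, fun t ht => (isUnit_isPeriod hT ht).ne_zero⟩, k, hk, hk', ?_⟩
  intro m m' c c' y y' hm hc hc' hy hf
  exact Pool.Agent.X274.PR.transfer hT hk' m m' hm hc hc' hy hf

end Pool.Agent.Results.MP_b696eb_nt.PeriodsOfRepresentations
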