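import Pool.Agent.X33.DR.SMain
import Pool.Agent.X33.DR.Split

set_option autoImplicit false

/-! # Deligne's periods of symmetric and exterior powers and of all Schur functors of odd degree

Let `M` be a pure motive over `ℚ` with coefficients in a number field `E`, `k` odd, and `T = e (M^{⊗ k})` for an
idempotent `e` of `E[S_k]`. If `M` and `T` have no `(w/2, w/2)`-classes (this is automatic if the weight of `M`
is odd), then, modulo `Eˣ`,

`c⁺(T) / c⁻(T) = (c⁺(M) / c⁻(M)) ^ r`,

with `r · dim M = ∑ e(σ) · (length of the odd cycle of σ) · (dim M) ^ (number of cycles of σ)`, the sum over the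
`σ` in `S_k` with exactly one cycle of odd length. For `Λ^{2l+1}` the exponent is `(-1)^l (d-1 choose l)`, for
`Sym^{2l+1}` it is `(d+l choose l)`, `d = dim M⁺ = dim M / 2`. No condition on the Hodge numbers is needed.
Consequently Deligne's conjecture for `L(T, s)` at critical integers of opposite parity gives the ratio of the
critical values in terms of `2πi` and the periods of `M` alone.

Proof: let `J` be the operator `sign (p - q)` on `M^{p,q}`; it anticommutes with `F_∞`, and `c⁺(M) / c⁻(M)` is the
determinant of `J : M⁺ ⊗ ℂ → M⁻ ⊗ ℂ` in `E`-bases. The involution `J_T S_e(J_M)` commutes with `F_∞`; its trace is in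
`E`, so its determinant on `T⁺ ⊗ ℂ` is the same sign at all embeddings of `E`. A multiplicative function on
`GL(M⁺) × GL(M⁻)` over `E ⊗ ℂ` is a product of powers of the determinants, and the powers are found from the trace
of the derivation of `S_e(F_∞)`. The sums over permutations are evaluated by counting colourings. -/

namespace Pool.Agent.Results.MP_b696eb_nt.SymmetricExteriorPeriods

open TensorProduct Pool.Agent.X33.DP Pool.Agent.X33.DP.PMot

/-- The periods of `M` and `T` exist and are units of `E ⊗ ℂ` (`UnitPeriods`); the relation between them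
(`RatioPow`) with the exponent `r` given by the cycles of permutations; for each such `r` the equivalence of
Deligne's formula for `T` with a formula for the ratio of the values in terms of the periods of `M`
(`TransferPow`); the exponents for the exterior and the symmetric powers. -/
theorem result (E : Type) [Field E] [NumberField E] (M T : PMot E (E ⊗[ℚ] ℂ)) (k : ℕ)
    (e : Equiv.Perm (Fin k) → E) (π : Matrix (Fin T.N) (Fin k → Fin M.N) E)
    (γ : Matrix (Fin k → Fin M.N) (Fin T.N) E) (h : IsSchur M T k e π γ) (hk : Odd k)
    (hM : NoMiddle M) (hT : NoMiddle T) :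
    UnitPeriods M ∧ UnitPeriods T ∧
      (∃ r : ℤ, (r : E) * M.N = ∑ σ, e σ * (oddLen σ * (M.N : E) ^ numCyc σ) ∧ RatioPow M T r) ∧
      (∀ r : ℤ, RatioPow M T r → TransferPow (tpi E) M T r) ∧
      (∀ l : ℕ, k = 2 * l + 1 →
        (∀ σ, e σ = ((Equiv.Perm.sign σ : ℤˣ) : ℤ) / (k.factorial : E)) →
        RatioPow M T ((-1) ^ l * ((M.dim 1 - 1).choose l : ℤ))) ∧
      ∀ l : ℕ, k = 2 * l + 1 → (∀ σ, e σ = 1 / (k.factorial : E)) →
        RatioPow M T ((M.dim 1 + l).choose l : ℤ) := by
  obtain ⟨I, _, _, ⟨κ⟩⟩ := exists_split E
  refine ⟨unitPeriods hM, unitPeriods hT, schur_cyc κ h hk hM hT,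
    fun r hr => transferPow (tpi E) (tpi_mul E) hT hr, ?_, ?_⟩
  · rintro l rfl he
    exact ext_main κ h he hM hT
  · rintro l rfl he
    exact sym_main κ h he hM hT

end Pool.Agent.Results.MP_b696eb_nt.SymmetricExteriorPeriods
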